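import Pool.Agent.X182.FE.Main

set_option autoImplicit false

/-!
# MP_12983e_an: all continuous solutions of `f (x + f x) = f x + f (f x)`
-/

namespace Pool.Agent.Results.MP_12983e_an.AllContinuousSolutions

/-- A continuous `f : ℝ → ℝ` satisfies `f (x + f x) = f x + f (f x)` for all `x` if and only if
`f x = a x` for `x ≥ 0` and `f x = b x` for `x < 0`, where either `a = b`, or `a, b ≥ 0`. -/
theorem result (f : ℝ → ℝ) (hf : Continuous f) :
    (∀ x, f (x + f x) = f x + f (f x)) ↔
      ∃ a b : ℝ, (a = b ∨ (0 ≤ a ∧ 0 ≤ b)) ∧ ∀ x, f x = if 0 ≤ x then a * x else b * x :=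
  Pool.Agent.X182.FE.classification f hf

end Pool.Agent.Results.MP_12983e_an.AllContinuousSolutions
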